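import Pool.Agent.Helper57K1.FS.Red
import Pool.Agent.Helper57K1.FS.C

/-!
# Polygons are reducible

`red_planar : RedFew n → RedPlanar n`.
-/

set_option autoImplicit false

namespace Pool.Agent.Helper31.FS

open MeasureTheory Set Filter Topology
open scoped ENNReal NNReal
open Pool.Agent.Y513.LPM (E Z mahlerLp supportLp)
open Pool.Agent.Helper57K1.LM
open Pool.Agent.Helper57K1.FS
open Pool.Agent.Helper98.JN (lsp)

variable {n : ℕ}

private lemma aux3 {x₀ a b s : E n} {β γ : ℝ} (h : s - x₀ = β • (a - x₀) + γ • (b - x₀)) :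
    s = (1 - β - γ) • x₀ + β • a + γ • b := by
  have h1 : s = x₀ + (s - x₀) := by abel
  rw [h1, h]
  module

private lemma aux4 {x₀ a b s : E n} {β γ r t : ℝ}
    (h : s = (1 - β - γ) • x₀ + β • a + γ • b) (hr : r = β + γ - 1) :
    s + r • (x₀ + t • (b - a)) = (β - r * t) • a + (γ + r * t) • b := by
  rw [h, hr]
  module

/-- the induction -/
lemma red_step (hF : RedFew n) {V : Submodule ℝ (E n × ℝ)} (hV : Module.finrank ℝ V ≤ 3) :
    ∀ (N : ℕ) (S : Finset (E n)), S.card ≤ N → (∀ x ∈ S, (x, (1 : ℝ)) ∈ V) → Red S := by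
  classical
  intro N
  induction N with
  | zero =>
    intro S hcard hS
    exact Red.base (by omega)
  | succ N ih =>
    intro S hcard hS
    have hlS : lsp (S : Set (E n)) ≤ V := by
      rw [Submodule.span_le]
      rintro _ ⟨x, hx, rfl⟩
      exact hS x hx
    have hfS : Module.finrank ℝ (lsp (S : Set (E n))) ≤ 3 :=
      (Submodule.finrank_mono hlS).trans hV
    by_cases h4' : S.card ≤ Module.finrank ℝ (lsp (S : Set (E n))) + 1
    · exact hF S h4'
    push Not at h4'
    have h4 : 3 < S.card := by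
      by_contra h
      push Not at h
      obtain ⟨o, ho⟩ := Finset.card_pos.1 (show 0 < S.card by omega)
      have h1 := finrank_dir (o := o) (X := (S : Set (E n)))
        (Submodule.subset_span ⟨o, ho, rfl⟩)
      have h2 : Module.finrank ℝ (dir o (S : Set (E n))) = 0 := by omega
      have h3 : dir o (S : Set (E n)) = ⊥ := Submodule.finrank_eq_zero.1 h2
      have h5 : S ⊆ {o} := by
        intro x hx
        rw [Finset.mem_singleton]
        have h6 : x - o ∈ dir o (S : Set (E n)) := Submodule.subset_span ⟨x, hx, rfl⟩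
        rw [h3, Submodule.mem_bot] at h6
        exact sub_eq_zero.1 h6
      have h7 := Finset.card_le_card h5
      rw [Finset.card_singleton] at h7
      omega
    by_cases hred : ∃ x ∈ S, x ∈ convexHull ℝ ((S.erase x : Finset (E n)) : Set (E n))
    · -- a redundant point
      obtain ⟨x, hx, hxr⟩ := hred
      have heq : convexHull ℝ (S : Set (E n)) =
          convexHull ℝ ((S.erase x : Finset (E n)) : Set (E n)) := by
        apply hull_replace
        · refine Subset.trans ?_ (subset_convexHull ℝ _)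
          exact_mod_cast Finset.erase_subset x S
        · intro y hy
          rcases eq_or_ne y x with rfl | hne
          · exact hxr
          · exact subset_convexHull ℝ _ (by
              simp only [Finset.coe_erase, mem_diff, mem_singleton_iff]
              exact ⟨hy, hne⟩)
      exact Red.hull heq.symm (ih (S.erase x) (by rw [Finset.card_erase_of_mem hx]; omega)
        (fun y hy => hS y (Finset.mem_of_mem_erase hy)))
    push Not at hred
    obtain ⟨x₀, hx₀⟩ := Finset.card_pos.1 (show 0 < S.card by omega)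
    set S' : Finset (E n) := S.erase x₀ with hS'
    have hS'card : 3 ≤ S'.card := by rw [hS', Finset.card_erase_of_mem hx₀]; omega
    set W : Set (E n) := ↑S' with hW
    have hins : (S : Set (E n)) = insert x₀ W := by
      rw [hW, hS', ← Finset.coe_insert, Finset.insert_erase hx₀]
    have hWc : IsCompact (convexHull ℝ W) :=
      Pool.Agent.H73R3.compact_hull S'.finite_toSet.isCompact
    obtain ⟨g, u, hgu, hg⟩ := geometric_hahn_banach_point_closed (convex_convexHull ℝ W)
      hWc.isClosed (hred x₀ hx₀)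
    have hgpos : ∀ s ∈ S', 0 < g (s - x₀) := by
      intro s hs
      have := hg s (subset_convexHull ℝ _ hs)
      rw [map_sub]; linarith
    have hS'S : ∀ s ∈ S', s ∈ S := fun s hs => Finset.mem_of_mem_erase hs
    have hS'x : ∀ s ∈ S', s ≠ x₀ := fun s hs => Finset.ne_of_mem_erase hs
    -- membership in the hull of the other points
    have hothers : ∀ s ∈ S, ∀ s' ∈ S, s' ≠ s →
        s' ∈ convexHull ℝ ((S.erase s : Finset (E n)) : Set (E n)) :=
      fun s _ s' hs' hne => subset_convexHull ℝ _ (by
        simp only [Finset.coe_erase, mem_diff, mem_singleton_iff]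
        exact ⟨hs', hne⟩)
    have hcol1 : ∀ s ∈ S', ∀ s' ∈ S', s ≠ s' → ∀ c : ℝ, c ≤ 1 → 0 ≤ c →
        s - x₀ ≠ c • (s' - x₀) := by
      intro s hs s' hs' hne c hc1 hc0 h
      refine hred s (hS'S s hs) ?_
      have h1 : s = (1 - c) • x₀ + c • s' := by
        have h2 : s = x₀ + (s - x₀) := by abel
        rw [h2, h]; module
      have h2 := convex_convexHull ℝ ((S.erase s : Finset (E n)) : Set (E n))
        (hothers s (hS'S s hs) x₀ hx₀ (hS'x s hs).symm)
        (hothers s (hS'S s hs) s' (hS'S s' hs') hne.symm)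
        (a := 1 - c) (b := c) (by linarith) hc0 (by ring)
      rwa [← h1] at h2
    have hcol : ∀ s ∈ S', ∀ s' ∈ S', s ≠ s' → ∀ c : ℝ, s - x₀ ≠ c • (s' - x₀) := by
      intro s hs s' hs' hne c h
      have h1 := hgpos s hs
      have h2 := hgpos s' hs'
      have h4 : g (s - x₀) = c * g (s' - x₀) := by rw [h, map_smul, smul_eq_mul]
      have hc : 0 < c := by
        by_contra hc
        push Not at hc
        nlinarith
      rcases le_or_gt c 1 with hc1 | hc1
      · exact hcol1 s hs s' hs' hne c hc1 hc.le h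
      · refine hcol1 s' hs' s hs hne.symm c⁻¹ (inv_le_one_of_one_le₀ hc1.le) (by positivity) ?_
        rw [h, smul_smul, inv_mul_cancel₀ hc.ne', one_smul]
    have hoS : (x₀, (1 : ℝ)) ∈ lsp (S : Set (E n)) := Submodule.subset_span ⟨x₀, hx₀, rfl⟩
    have hD : Module.finrank ℝ (dir x₀ (S : Set (E n))) ≤ 2 := by
      have := finrank_dir hoS
      omega
    have hSD : ∀ s ∈ S, s - x₀ ∈ dir x₀ (S : Set (E n)) := fun s hs =>
      Submodule.subset_span ⟨s, hs, rfl⟩
    obtain ⟨a, ha, b, hb, hray, hab⟩ := planar_rays (Finset.card_pos.1 (by omega)) hD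
      (fun s hs => hSD s (hS'S s hs)) g hgpos hcol
    have hne : a ≠ b := by
      intro h
      have h1 : S' ⊆ {a} := fun s hs => Finset.mem_singleton.2 (hab h s hs)
      have := Finset.card_le_card h1
      rw [Finset.card_singleton] at this
      omega
    have hray2 : ∀ s ∈ S', s ≠ a → s ≠ b → ∃ β γ : ℝ, 0 < β ∧ 0 < γ ∧
        s = (1 - β - γ) • x₀ + β • a + γ • b ∧ 1 < β + γ := by
      intro s hs hsa hsb
      obtain ⟨β, γ, hβ, hγ, h⟩ := hray s hs hsa hsb
      have h1 := aux3 h
      refine ⟨β, γ, hβ, hγ, h1, ?_⟩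
      by_contra h2
      push Not at h2
      refine hred s (hS'S s hs) ?_
      rw [h1]
      have hc := convex_convexHull ℝ ((S.erase s : Finset (E n)) : Set (E n))
      have m0 := hothers s (hS'S s hs) x₀ hx₀ (hS'x s hs).symm
      have m1 := hothers s (hS'S s hs) a (hS'S a ha) hsa.symm
      have m2 := hothers s (hS'S s hs) b (hS'S b hb) hsb.symm
      have h5 := hc.sum_mem (t := Finset.univ) (w := ![1 - β - γ, β, γ]) (z := ![x₀, a, b])
        (by
          intro i _
          fin_cases i
          · simp; linarith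
          · simp; linarith
          · simp; linarith) (by simp [Fin.sum_univ_three]; ring) (by
          intro i _
          fin_cases i
          · exact m0
          · exact m1
          · exact m2)
      rw [Fin.sum_univ_three] at h5
      simp only [Matrix.cons_val_zero, Matrix.cons_val_one, Matrix.cons_val_two,
        Matrix.head_cons, Matrix.tail_cons] at h5
      rw [← h1] at h5 ⊢
      exact h5
    choose! β γ hβ hγ hsβ hβγ using hray2
    -- the functional
    set U : Submodule ℝ (E n × ℝ) :=
      Submodule.span ℝ ({(a, (1 : ℝ)), (b, (1 : ℝ))} : Set (E n × ℝ)) with hU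
    have haV : (a, (1 : ℝ)) ∈ U := Submodule.subset_span (by simp)
    have hbV : (b, (1 : ℝ)) ∈ U := Submodule.subset_span (by simp)
    have hx₀V : (x₀, (1 : ℝ)) ∉ U := by
      intro h
      obtain ⟨c, d, hcd⟩ := Submodule.mem_span_pair.1 h
      have e1 : c • a + d • b = x₀ := congrArg Prod.fst hcd
      have e2 : c + d = 1 := by
        have := congrArg Prod.snd hcd
        simpa using this
      have e3 : c • (a - x₀) + d • (b - x₀) = 0 := by
        have : c • (a - x₀) + d • (b - x₀) = (c • a + d • b) - (c + d) • x₀ := by module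
        rw [this, e1, e2, one_smul, sub_self]
      by_cases hc : c = 0
      · rw [hc, zero_smul, zero_add] at e3
        rw [hc, zero_add] at e2
        rw [e2, one_smul] at e3
        exact hS'x b hb (sub_eq_zero.1 e3)
      · refine hcol a ha b hb hne (-(d / c)) ?_
        have e4 : a - x₀ = c⁻¹ • (c • (a - x₀)) := by
          rw [smul_smul, inv_mul_cancel₀ hc, one_smul]
        rw [e4, eq_neg_of_add_eq_zero_left e3]
        module
    obtain ⟨f, hf, hVf⟩ := Submodule.exists_le_ker_of_notMem hx₀V
    have hfV : ∀ y ∈ U, f y = 0 := fun y hy => LinearMap.mem_ker.1 (hVf hy)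
    set ℓ : E n → ℝ := fun x => f (x, 1) / f (x₀, 1) with hℓdef
    have hℓ : ∀ (x y : E n) (s t : ℝ), s + t = 1 → ℓ (s • x + t • y) = s * ℓ x + t * ℓ y := by
      intro x y s t hst
      simp only [hℓdef]
      have h1 : (s • x + t • y, (1 : ℝ)) = s • (x, (1 : ℝ)) + t • (y, (1 : ℝ)) := by
        ext1
        · rfl
        · simp [hst]
      rw [h1, map_add, map_smul, map_smul, smul_eq_mul, smul_eq_mul]
      ring
    have hℓc : Continuous ℓ := by
      have hfc : Continuous f := f.continuous_of_finiteDimensional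
      exact (hfc.comp (by fun_prop)).div_const _
    have hℓ0 : ℓ x₀ = 1 := div_self hf
    have hℓa : ℓ a = 0 := by simp only [hℓdef]; rw [hfV _ haV, zero_div]
    have hℓb : ℓ b = 0 := by simp only [hℓdef]; rw [hfV _ hbV, zero_div]
    set v : E n := b - a with hv
    have hv0 : v ≠ 0 := sub_ne_zero.2 hne.symm
    have hinv : ∀ (x : E n) (s : ℝ), ℓ (x + s • v) = ℓ x := by
      intro x s
      simp only [hℓdef]
      have h1 : (x + s • v, (1 : ℝ)) = (x, (1 : ℝ)) + s • ((b, (1 : ℝ)) - (a, (1 : ℝ))) := by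
        ext1
        · rfl
        · simp
      rw [h1, map_add, map_smul, map_sub, hfV _ haV, hfV _ hbV]
      simp
    set r : E n → ℝ := fun s => β s + γ s - 1 with hr
    have hℓs : ∀ s ∈ S', s ≠ a → s ≠ b → ℓ s = -r s := by
      intro s hs hsa hsb
      have h1 : ℓ s = (1 - β s - γ s) * ℓ x₀ + β s * ℓ a + γ s * ℓ b := by
        simp only [hℓdef]
        have h2 : (s, (1 : ℝ)) = (1 - β s - γ s) • (x₀, (1 : ℝ)) + β s • (a, (1 : ℝ)) +
            γ s • (b, (1 : ℝ)) := by
          ext1
          · exact hsβ s hs hsa hsb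
          · simp; ring
        rw [h2, map_add, map_add, map_smul, map_smul, map_smul, smul_eq_mul, smul_eq_mul,
          smul_eq_mul]
        ring
      rw [h1, hℓ0, hℓa, hℓb, hr]
      ring
    have haW : a ∈ convexHull ℝ W := subset_convexHull ℝ _ ha
    have hbW : b ∈ convexHull ℝ W := subset_convexHull ℝ _ hb
    -- the crossing condition
    have hcross : ∀ t : ℝ, (∀ s ∈ S', s ≠ a → s ≠ b → r s * t ≤ β s ∧ -(r s * t) ≤ γ s) →
        ∀ q ∈ convexHull ℝ W, ℓ q ≤ 0 ∧
          (1 / (1 - ℓ q)) • (q - ℓ q • (x₀ + t • v)) ∈ convexHull ℝ W := by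
      intro t ht
      refine crossing hℓ (convex_convexHull ℝ W) ?_
      intro w hw
      have hzero : ∀ y ∈ convexHull ℝ W, ℓ y = 0 → ℓ y ≤ 0 ∧
          (1 / (1 - ℓ y)) • (y - ℓ y • (x₀ + t • v)) ∈ convexHull ℝ W := by
        intro y hy h0
        rw [h0]
        simpa using hy
      have hw' : w ∈ S' := hw
      rcases eq_or_ne w a with rfl | hwa
      · exact hzero w haW hℓa
      rcases eq_or_ne w b with rfl | hwb
      · exact hzero w hbW hℓb
      have h1 := hℓs w hw' hwa hwb
      have hr0 : 0 < r w := by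
        have := hβγ w hw' hwa hwb
        simp only [hr]; linarith
      obtain ⟨ht1, ht2⟩ := ht w hw' hwa hwb
      rw [h1]
      refine ⟨by linarith, ?_⟩
      have e1 : w - (-r w) • (x₀ + t • v) = (β w - r w * t) • a + (γ w + r w * t) • b := by
        rw [neg_smul, sub_neg_eq_add]
        exact aux4 (hsβ w hw' hwa hwb) rfl
      rw [e1, smul_add, smul_smul, smul_smul]
      refine convex_convexHull ℝ W haW hbW ?_ ?_ ?_
      · have : 0 ≤ β w - r w * t := by linarith
        have : 0 < 1 - -r w := by linarith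
        positivity
      · have : 0 ≤ γ w + r w * t := by linarith
        have : 0 < 1 - -r w := by linarith
        positivity
      · have h6 : (1 : ℝ) - -r w = β w + γ w := by simp only [hr]; ring
        have h7 : 0 < β w + γ w := by have := hβγ w hw' hwa hwb; linarith
        rw [h6]
        field_simp
        ring
    have hC0 : ∀ q ∈ convexHull ℝ W, ℓ q ≤ 0 ∧
        (1 / (1 - ℓ q)) • (q - ℓ q • x₀) ∈ convexHull ℝ W := by
      have := hcross 0 (fun s hs hsa hsb => by
        have h1 := hβ s hs hsa hsb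
        have h2 := hγ s hs hsa hsb
        constructor <;> linarith)
      simpa using this
    -- the other points
    set T : Finset (E n) := (S'.erase a).erase b with hT
    have hTmem : ∀ s, s ∈ T ↔ s ∈ S' ∧ s ≠ a ∧ s ≠ b := by
      intro s
      rw [hT, Finset.mem_erase, Finset.mem_erase]
      tauto
    have hTne : T.Nonempty := by
      apply Finset.card_pos.1
      rw [hT, Finset.card_erase_of_mem (Finset.mem_erase.2 ⟨hne.symm, hb⟩),
        Finset.card_erase_of_mem ha]
      omega
    have hrpos : ∀ s ∈ T, 0 < r s := by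
      intro s hs
      obtain ⟨h1, h2, h4⟩ := (hTmem s).1 hs
      have := hβγ s h1 h2 h4
      simp only [hr]; linarith
    have hWne : W.Nonempty := ⟨a, ha⟩
    have hinv' : ∀ (x : E n) (s : ℝ), max 0 (ℓ (x + s • v)) = max 0 (ℓ x) := by
      intro x s; rw [hinv]
    have hβc : Continuous (fun x => max 0 (ℓ x)) := continuous_const.max hℓc
    -- the end points
    have key : ∀ (t : ℝ) (c : E n), c ∈ S' →
        (∀ s ∈ S', s ≠ a → s ≠ b → r s * t ≤ β s ∧ -(r s * t) ≤ γ s) →
        (∃ s ∈ S', s ≠ c ∧ ∃ θ : ℝ, 0 ≤ θ ∧ θ ≤ 1 ∧ c = θ • s + (1 - θ) • (x₀ + t • v)) →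
        ∃ S₁ : Finset (E n), shear (fun x => max 0 (ℓ x)) v t '' convexHull ℝ (S : Set (E n)) =
          convexHull ℝ (S₁ : Set (E n)) ∧ Red S₁ := by
      intro t c hc ht hcr
      have hCt := hcross t ht
      have himg := shear_insert hWne hℓ (fun q hq => (hC0 q hq).1) hℓ0 hinv
        (fun q hq => (hC0 q hq).2) (fun q hq => (hCt q hq).2)
      obtain ⟨s, hs, hsc, θ, hθ0, hθ1, hcs⟩ := hcr
      set S₁ : Finset (E n) := insert (x₀ + t • v) (S'.erase c) with hS₁
      have hhull : convexHull ℝ (insert (x₀ + t • v) W) = convexHull ℝ (S₁ : Set (E n)) := by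
        apply hull_replace
        · refine Subset.trans ?_ (subset_convexHull ℝ _)
          intro y hy
          rw [hS₁, Finset.coe_insert, mem_insert_iff] at hy
          rcases hy with hy | hy
          · exact Or.inl hy
          · exact Or.inr (Finset.mem_of_mem_erase hy)
        · have hm : ∀ y ∈ S₁, y ∈ convexHull ℝ (S₁ : Set (E n)) := fun y hy =>
            subset_convexHull ℝ _ hy
          have hxt : x₀ + t • v ∈ S₁ := Finset.mem_insert_self _ _
          rintro y (hy | hy)
          · rw [hy]; exact hm _ hxt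
          · rcases eq_or_ne y c with h' | hyc
            · rw [h', hcs]
              exact convex_convexHull ℝ _
                (hm s (Finset.mem_insert_of_mem (Finset.mem_erase.2 ⟨hsc, hs⟩))) (hm _ hxt)
                hθ0 (by linarith) (by ring)
            · exact hm y (Finset.mem_insert_of_mem (Finset.mem_erase.2 ⟨hyc, hy⟩))
      refine ⟨S₁, by rw [hins, himg, hhull], ih S₁ ?_ ?_⟩
      · have h1 : S₁.card ≤ (S'.erase c).card + 1 := Finset.card_insert_le _ _
        rw [Finset.card_erase_of_mem hc] at h1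
        have h2 : S'.card = S.card - 1 := Finset.card_erase_of_mem hx₀
        omega
      · intro y hy
        rw [hS₁, Finset.mem_insert] at hy
        rcases hy with hy | hy
        · rw [hy]
          have h1 : (x₀ + t • v, (1 : ℝ)) = (x₀, (1 : ℝ)) + t • ((b, (1 : ℝ)) - (a, (1 : ℝ))) := by
            ext1
            · rfl
            · simp
          rw [h1]
          exact V.add_mem (hS x₀ hx₀) (V.smul_mem _ (V.sub_mem (hS b (hS'S b hb))
            (hS a (hS'S a ha))))
        · exact hS y (hS'S y (Finset.mem_of_mem_erase hy))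
    obtain ⟨s₁, hs₁, hmin1⟩ := Finset.exists_min_image T (fun s => β s / r s) hTne
    obtain ⟨s₂, hs₂, hmin2⟩ := Finset.exists_min_image T (fun s => γ s / r s) hTne
    obtain ⟨hs₁S, hs₁a, hs₁b⟩ := (hTmem s₁).1 hs₁
    obtain ⟨hs₂S, hs₂a, hs₂b⟩ := (hTmem s₂).1 hs₂
    have hr1 := hrpos s₁ hs₁
    have hr2 := hrpos s₂ hs₂
    have hβ1 := hβ s₁ hs₁S hs₁a hs₁b
    have hγ1 := hγ s₁ hs₁S hs₁a hs₁b
    have hβ2 := hβ s₂ hs₂S hs₂a hs₂b
    have hγ2 := hγ s₂ hs₂S hs₂a hs₂b
    have ht1 : 0 < β s₁ / r s₁ := div_pos hβ1 hr1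
    have ht2 : 0 < γ s₂ / r s₂ := div_pos hγ2 hr2
    have hk1 := key (β s₁ / r s₁) b hb (fun s hs hsa hsb => by
      have hsT := (hTmem s).2 ⟨hs, hsa, hsb⟩
      have h1 := hmin1 s hsT
      have h2 := hrpos s hsT
      have h4 := hγ s hs hsa hsb
      constructor
      · rw [le_div_iff₀ h2] at h1
        linarith
      · have : 0 < r s * (β s₁ / r s₁) := mul_pos h2 ht1
        linarith) ⟨s₁, hs₁S, hs₁b, 1 / (1 + r s₁), by positivity, by
        rw [div_le_one (by positivity)]; linarith, by
        have h1 := aux4 (t := β s₁ / r s₁) (r := r s₁) (hsβ s₁ hs₁S hs₁a hs₁b) rfl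
        have h2 : β s₁ - r s₁ * (β s₁ / r s₁) = 0 := by field_simp; ring
        have h4 : γ s₁ + r s₁ * (β s₁ / r s₁) = 1 + r s₁ := by
          rw [mul_div_cancel₀ _ hr1.ne']; simp only [hr]; ring
        rw [h2, h4, zero_smul, zero_add] at h1
        have h5 : (1 : ℝ) - 1 / (1 + r s₁) = 1 / (1 + r s₁) * r s₁ := by field_simp; ring
        rw [h5, mul_smul, ← smul_add, h1, smul_smul, one_div, inv_mul_cancel₀ (by positivity),
          one_smul]⟩
    have hk2 := key (-(γ s₂ / r s₂)) a ha (fun s hs hsa hsb => by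
      have hsT := (hTmem s).2 ⟨hs, hsa, hsb⟩
      have h1 := hmin2 s hsT
      have h2 := hrpos s hsT
      have h4 := hβ s hs hsa hsb
      constructor
      · have : 0 < r s * (γ s₂ / r s₂) := mul_pos h2 ht2
        linarith
      · rw [le_div_iff₀ h2] at h1
        linarith) ⟨s₂, hs₂S, hs₂a, 1 / (1 + r s₂), by positivity, by
        rw [div_le_one (by positivity)]; linarith, by
        have h1 := aux4 (t := -(γ s₂ / r s₂)) (r := r s₂) (hsβ s₂ hs₂S hs₂a hs₂b) rfl
        have h2 : γ s₂ + r s₂ * (-(γ s₂ / r s₂)) = 0 := by field_simp; ring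
        have h4 : β s₂ - r s₂ * (-(γ s₂ / r s₂)) = 1 + r s₂ := by
          rw [mul_neg, mul_div_cancel₀ _ hr2.ne']; simp only [hr]; ring
        rw [h2, h4, zero_smul, add_zero] at h1
        have h5 : (1 : ℝ) - 1 / (1 + r s₂) = 1 / (1 + r s₂) * r s₂ := by field_simp; ring
        rw [h5, mul_smul, ← smul_add, h1, smul_smul, one_div, inv_mul_cancel₀ (by positivity),
          one_smul]⟩
    obtain ⟨F₁, e₁, r₁⟩ := hk1
    obtain ⟨F₀, e₀, r₀⟩ := hk2
    exact Red.move hβc (subset_convexHull ℝ _ (hS'S a ha)) (subset_convexHull ℝ _ (hS'S b hb))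
      hv0 hinv' (t₀ := -(γ s₂ / r s₂)) (t₁ := β s₁ / r s₁) (by linarith) ht1 e₀ e₁ r₀ r₁

/-- **polygons are reducible** -/
theorem red_planar (hF : RedFew n) : RedPlanar n := by
  intro S hS
  exact red_step hF hS S.card S le_rfl (fun x hx => Submodule.subset_span ⟨x, hx, rfl⟩)

end Pool.Agent.Helper31.FS
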